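import Pool.Agent.Helper42.QD.Stmts

/-!
# Existence of a vector `ind x 0` with a type
-/

set_option autoImplicit false

namespace Pool.Agent.Helper42.QD

open VD

variable {D k : Type} [DivisionRing D] [Field k] {c : VD D k} {R : KM c}

/-- commutators of `1 + P ^ h M_2(O)` -/
theorem exb_comm {h : ℤ} (hh : 1 ≤ h) {g1 g2 : G2 D} (h1 : KK c h g1) (h2 : KK c h g2) :
    KK c (h + 1) ((g2 * g1)⁻¹ * (g1 * g2)) := by
  have h3 : KK c h (g2 * g1) := KK_mul (by omega) h2 h1
  have h4 : KK c h (g2 * g1)⁻¹ := KK_inv hh h3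
  have h5 : ∀ i j, c.P 0 ((g2 * g1)⁻¹.val i j) := KO_P0_of_KK (KK_mono (by omega) h4)
  have h6 : ((g2 * g1)⁻¹ * (g1 * g2)).val - 1 =
      (g2 * g1)⁻¹.val * ((g1.val - 1) * (g2.val - 1) - (g2.val - 1) * (g1.val - 1)) := by
    have e1 : (g1.val - 1) * (g2.val - 1) - (g2.val - 1) * (g1.val - 1) =
        (g1 * g2).val - (g2 * g1).val := by
      rw [Units.val_mul, Units.val_mul]
      noncomm_ring
    rw [e1, mul_sub, Units.inv_mul, Units.val_mul (g2 * g1)⁻¹]
  intro i j
  rw [h6, Matrix.mul_apply, Fin.sum_univ_two]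
  have h7 : ∀ a b, c.P (h + 1)
      (((g1.val - 1) * (g2.val - 1) - (g2.val - 1) * (g1.val - 1)) a b) := by
    intro a b
    rw [Matrix.sub_apply, Matrix.mul_apply, Matrix.mul_apply, Fin.sum_univ_two, Fin.sum_univ_two]
    exact P_sub (P_add (P_mul' (h1 _ _) (h2 _ _) (by omega)) (P_mul' (h1 _ _) (h2 _ _) (by omega)))
      (P_add (P_mul' (h2 _ _) (h1 _ _) (by omega)) (P_mul' (h2 _ _) (h1 _ _) (by omega)))
  exact P_add (P_mul' (h5 _ _) (h7 _ _) (by omega)) (P_mul' (h5 _ _) (h7 _ _) (by omega))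

theorem exb_swap {h : ℤ} (hh : 1 ≤ h) {g1 g2 : G2 D} (h1 : KK c h g1) (h2 : KK c h g2)
    {e : Sp c} (he : Fix R (h + 1) e) : R.rho g1 (R.rho g2 e) = R.rho g2 (R.rho g1 e) := by
  have h3 := he _ (exb_comm hh h1 h2)
  rw [← rho_mul, ← rho_mul, ← h3, ← rho_mul (R := R) (g2 * g1), mul_inv_cancel_left, h3]

/-- shift invariance of sums over representatives -/
theorem exb_shift {V : Type} [AddCommMonoid V] {i : ℤ} {n : ℕ} {S : Finset D}
    (hS1 : ∀ s ∈ S, c.P i s) (hS2 : ∀ x, c.P i x → ∃ s ∈ S, c.P (i + n) (x - s))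
    (hS3 : ∀ s ∈ S, ∀ s' ∈ S, c.P (i + n) (s - s') → s = s') (F : D → V)
    (hF : ∀ z u, c.P i z → c.P (i + n) u → F (z + u) = F z) {b : D} (hb : c.P i b) :
    ∑ y ∈ S, F (y + b) = ∑ y ∈ S, F y := by
  classical
  choose g hg hg' using fun s : S => hS2 (s.1 + b) (P_add (hS1 _ s.2) hb)
  rw [← Finset.sum_coe_sort S, ← Finset.sum_coe_sort S]
  let G : S → S := fun s => ⟨g s, hg s⟩
  have hG : Function.Injective G := by
    intro s s' h
    have h2 : g s = g s' := congrArg Subtype.val h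
    apply Subtype.ext
    apply hS3 _ s.2 _ s'.2
    have h3 : s.1 - s'.1 = (s.1 + b - g s) - (s'.1 + b - g s') := by rw [h2]; abel
    rw [h3]
    exact P_sub (hg' s) (hg' s')
  have hG' : Function.Bijective G := Finite.injective_iff_bijective.1 hG
  rw [← hG'.sum_comp (fun s : S => F s.1)]
  refine Finset.sum_congr rfl fun s _ => ?_
  change F (s.1 + b) = F (g s)
  have h4 := hF (g s) (s.1 + b - g s) (hS1 _ (hg s)) (hg' s)
  rw [add_sub_cancel] at h4
  exact h4

theorem exb_ind [Finite k] (hA : ST_A) {h : ℕ} {f : Sp c} (hf : f ≠ 0)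
    (hF : Fix R ((h : ℤ) + 1) f) {x0 : D} (hx0 : x0 ≠ 0) (hv : c.v x0 = -h) (hh : 0 < h)
    {e : Sp c} (he : e.1 = ind c x0 0) : Fix R ((h : ℤ) + 1) e := by
  classical
  obtain ⟨S, hS0, hS1, hS2, hS3⟩ := exists_reps c 0 1
  rw [Nat.cast_one, zero_add] at hS2 hS3
  have hs : ∀ s ∈ S, x0 + s ≠ 0 ∧ c.v (x0 + s) = c.v x0 := fun s hs =>
    v_add_eq hx0 (P_mono (by omega) (hS1 s hs))
  let E : S → Sp c := fun s => ⟨ind c (x0 + s.1) 1, IsS_ind (hs s.1 s.2).1 (by
    rw [(hs s.1 s.2).2]; omega)⟩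
  have hE : ∀ s, Fix R ((h : ℤ) + 1) (E s) := fun s =>
    hA D k c R h f hf hF (x0 + s.1) (hs s.1 s.2).1 (by rw [(hs s.1 s.2).2, hv]) (E s) rfl
  have hsum : e = ∑ s : S, E s := by
    apply Sp_ext
    intro y
    rw [he, Submodule.coe_sum, Finset.sum_apply]
    by_cases hy : c.P 0 (y - x0)
    · obtain ⟨s, hs1, hs2⟩ := hS2 _ hy
      rw [ind_apply_of hy, Finset.sum_eq_single (⟨s, hs1⟩ : S)]
      · symm
        apply ind_apply_of
        rwa [← sub_sub]
      · intro t _ ht
        apply ind_apply_of_not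
        intro h3
        apply ht
        apply Subtype.ext
        apply hS3 _ t.2 _ hs1
        have h4 : t.1 - s = (y - x0 - s) - (y - (x0 + t.1)) := by abel
        rw [h4]
        exact P_sub hs2 h3
      · intro h3
        exact absurd (Finset.mem_univ _) h3
    · rw [ind_apply_of_not hy]
      symm
      apply Finset.sum_eq_zero
      intro s _
      apply ind_apply_of_not
      intro h3
      apply hy
      have h4 : y - x0 = (y - (x0 + s.1)) + s.1 := by abel
      rw [h4]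
      exact P_add (P_mono (by omega) h3) (hS1 _ s.2)
  rw [hsum]
  exact (FixS R ((h : ℤ) + 1)).sum_mem fun s _ => hE s

theorem exb_near {h : ℤ} (hh : 1 ≤ h) {x a d : D} (hx : c.P (-h) x) (ha : c.P h a) (hd : c.P h d) :
    c.P 0 ((1 + d)⁻¹ * x * (1 + a) - x) := by
  have h1 := one_add_inv hh hd
  have h2 : (1 + d)⁻¹ * x * (1 + a) - x = ((1 + d)⁻¹ - 1) * x * (1 + a) + x * a := by
    noncomm_ring
  rw [h2]
  have h3 : c.P 0 (1 + a) := P_add P_one (P_mono (by omega) ha)
  exact P_add (P_mul' (P_mul' h1 hx (l := 0) (by omega)) h3 (by omega)) (P_mul' hx ha (by omega))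

/-- the torus acts on `ind x0 0` by a character -/
theorem exb_dg {h : ℕ} (hh : 0 < h) {oh : D} (hoh : IsOh R h oh) {x0 : D}
    (hv : c.v x0 = -h) {e : Sp c} (he : e.1 = ind c x0 0) {a d : D} (ha : c.P h a) (hd : c.P h d) :
    R.rho (dg (1 + a) (1 + d)) e = c.psi (oh * d) • e := by
  apply Sp_ext
  intro x
  have h1 := (one_add (c := c) (P_mono (by omega) ha)).1
  have h2 := (one_add (c := c) (P_mono (by omega) hd)).1
  rw [R.rt _ _ h1 h2, hoh.2.1 d hd]
  change _ = c.psi (oh * d) * e.1 x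
  congr 1
  rw [he]
  have hP : c.P (-(h : ℤ)) x0 := Or.inr hv.ge
  by_cases hx : c.P 0 (x - x0)
  · have hxP : c.P (-(h : ℤ)) x := by
      have : x = (x - x0) + x0 := by abel
      rw [this]
      exact P_add (P_mono (by omega) hx) hP
    rw [ind_apply_of hx, ind_apply_of]
    have : (1 + d)⁻¹ * x * (1 + a) - x0 = ((1 + d)⁻¹ * x * (1 + a) - x) + (x - x0) := by abel
    rw [this]
    exact P_add (exb_near (by omega) hxP ha hd) hx
  · rw [ind_apply_of_not hx, ind_apply_of_not]
    intro h3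
    apply hx
    set y := (1 + d)⁻¹ * x * (1 + a) with hy
    have hyP : c.P (-(h : ℤ)) y := by
      have : y = (y - x0) + x0 := by abel
      rw [this]
      exact P_add (P_mono (by omega) h3) hP
    have hxy : x = (1 + ((1 + d)⁻¹ - 1))⁻¹ * y * (1 + ((1 + a)⁻¹ - 1)) := by
      rw [hy, add_sub_cancel, add_sub_cancel, inv_inv, mul_assoc (1 + d)⁻¹,
        mul_inv_cancel_left₀ h2, mul_inv_cancel_right₀ h1]
    have h4 := exb_near (c := c) (h := h) (by omega) hyP (one_add_inv (by omega) ha)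
      (one_add_inv (by omega) hd)
    rw [← hxy] at h4
    have : x - x0 = (x - y) + (y - x0) := by abel
    rw [this]
    exact P_add h4 h3

theorem st_EXB (hA : ST_A) : ST_EXB := by
  intro D k _ _ _ c R h f oh hh hf hF hoh x0 hx0 hv
  classical
  have hP : c.P (-(h : ℤ)) x0 := Or.inr hv.ge
  obtain ⟨e, he⟩ : ∃ e : Sp c, e.1 = ind c x0 0 := ⟨⟨ind c x0 0, IsS_ind hx0 (by omega)⟩, rfl⟩
  have hFe : Fix R ((h : ℤ) + 1) e := exb_ind hA hf hF hx0 hv hh he
  have he0 : e ≠ 0 := by
    intro h0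
    have h1 : e.1 x0 = 1 := by rw [he]; exact ind_apply_of (by rw [sub_self]; exact c.P_zero _)
    rw [h0] at h1
    exact zero_ne_one h1
  have hnn : ∀ b, c.P h b → R.rho (nn b) e = c.psi (x0 * b) • e := by
    intro b hb
    refine nn_of_supp' (i := h) (fun x hx => ?_) hb
    by_contra h1
    apply hx
    rw [he]
    apply ind_apply_of_not
    intro h2
    exact h1 (P_mono (by omega) h2)
  obtain ⟨S, hS0, hS1, hS2, hS3⟩ := exists_reps c h 1
  obtain ⟨Z, hZ0, hZ1, hZ2, hZ3⟩ := exists_reps c (-(h : ℤ)) 1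
  let EB : D → Sp c := fun B => ∑ y ∈ S, c.psi (-(B * y)) • R.rho (nm y) e
  obtain ⟨B, hB, hB0⟩ : ∃ B ∈ Z, EB B ≠ 0 := by
    by_contra hcon
    push Not at hcon
    have h1 : ∑ B ∈ Z, EB B = 0 := Finset.sum_eq_zero hcon
    have h2 : ∑ B ∈ Z, EB B = ∑ y ∈ S, (∑ B ∈ Z, c.psi (-(B * y))) • R.rho (nm y) e := by
      rw [Finset.sum_comm]
      refine Finset.sum_congr rfl fun y _ => ?_
      rw [Finset.sum_smul]
    have h3 : ∀ y ∈ S, (∑ B ∈ Z, c.psi (-(B * y))) • R.rho (nm y) e =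
        (if c.P (h + 1) y then (Z.card : ℂ) else 0) • e := by
      intro y hy
      have e1 : ∑ B ∈ Z, c.psi (-(B * y)) = ∑ B ∈ Z, c.psi (-y * B) := by
        refine Finset.sum_congr rfl fun B _ => ?_
        rw [← mul_neg, c.psi_comm]
      rw [e1, chsum hZ1 hZ2 hZ3 (P_mono (by push_cast; omega) (P_neg (hS1 y hy)))]
      by_cases h4 : c.P (h + 1) y
      · rw [if_pos h4, if_pos (P_mono (by omega) (P_neg h4)), hFe _ (KK_nm h4)]
      · rw [if_neg h4, if_neg, zero_smul, zero_smul]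
        intro h5
        apply h4
        have := P_neg h5
        rw [neg_neg] at this
        exact P_mono (by omega) this
    rw [Finset.sum_congr rfl h3] at h2
    rw [h2, ← Finset.sum_smul] at h1
    rcases smul_eq_zero.1 h1 with h4 | h4
    · rw [← Finset.sum_filter, Finset.sum_const, nsmul_eq_mul] at h4
      rcases mul_eq_zero.1 h4 with h5 | h5
      · have h6 : (S.filter fun y => c.P (h + 1) y).card = 0 := by exact_mod_cast h5
        obtain ⟨s, hs1, hs2⟩ := hS2 0 (c.P_zero _)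
        have h7 : s ∈ S.filter fun y => c.P (h + 1) y := by
          refine Finset.mem_filter.2 ⟨hs1, ?_⟩
          have := P_neg hs2
          rw [zero_sub, neg_neg] at this
          exact P_mono (by push_cast; omega) this
        rw [Finset.card_eq_zero] at h6
        rw [h6] at h7
        exact absurd h7 (Finset.notMem_empty _)
      · have : Z.card = 0 := by exact_mod_cast h5
        exact hZ0.card_pos.ne' this
    · exact he0 h4
  have hBP := hZ1 B hB
  have hM : ∀ x : D, c.P (-(h : ℤ)) x → ∀ i j, c.P (-(h : ℤ)) ((!![0, B; x, oh] : Matrix (Fin 2) (Fin 2) D) i j) :=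
    fun x hx => P_of (c.P_zero _) hBP hx hoh.1
  -- the type of `EB B`
  have hsw : ∀ (g : G2 D) (a : ℂ), KK c h g → R.rho g e = a • e → R.rho g (EB B) = a • EB B := by
    intro g a hg hga
    change R.rho g (∑ y ∈ S, c.psi (-(B * y)) • R.rho (nm y) e) =
      a • ∑ y ∈ S, c.psi (-(B * y)) • R.rho (nm y) e
    rw [map_sum, Finset.smul_sum]
    refine Finset.sum_congr rfl fun y hy => ?_
    rw [map_smul, exb_swap (by omega) hg (KK_nm (hS1 y hy)) hFe, hga, map_smul, smul_comm]
  have hTy : Ty R h !![0, B; x0, oh] (EB B) := by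
    refine Ty_of (by omega) (hM x0 hP) ?_ ?_ ?_
    · intro b hb
      exact hsw _ _ (KK_nn hb) (hnn b hb)
    · intro a d ha hd
      have h1 : (!![0, B; x0, oh] : Matrix (Fin 2) (Fin 2) D) 0 0 * a +
          (!![0, B; x0, oh] : Matrix (Fin 2) (Fin 2) D) 1 1 * d = oh * d := by simp
      rw [h1]
      exact hsw _ _ (KK_dg (by omega) ha hd) (exb_dg hh hoh hv he ha hd)
    · intro b hb
      change R.rho (nm b) (∑ y ∈ S, c.psi (-(B * y)) • R.rho (nm y) e) =
        c.psi (B * b) • ∑ y ∈ S, c.psi (-(B * y)) • R.rho (nm y) e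
      have h1 := exb_shift (c := c) hS1 hS2 hS3 (fun z => c.psi (-(B * z)) • R.rho (nm z) e)
        (fun z u hz hu => ?_) hb
      · refine Eq.trans ?_ (congrArg (fun v => c.psi (B * b) • v) h1)
        rw [map_sum, Finset.smul_sum]
        refine Finset.sum_congr rfl fun y hy => ?_
        rw [map_smul, ← rho_mul, ← nm_add, add_comm b y, smul_smul, ← AddChar.map_add_eq_mul]
        congr 2
        noncomm_ring
      · have hu' : c.P (h + 1) u := P_mono (by push_cast; omega) hu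
        change c.psi (-(B * (z + u))) • R.rho (nm (z + u)) e = c.psi (-(B * z)) • R.rho (nm z) e
        rw [nm_add, rho_mul, hFe _ (KK_nm hu')]
        congr 1
        apply psi_congr
        have h2 : -(B * (z + u)) - -(B * z) = -(B * u) := by noncomm_ring
        rw [h2]
        exact P_neg (P_mul' hBP hu' (by omega))
  obtain ⟨x, hx, hx1⟩ := exists_ne hB0
  have hxx0 : c.P (1 - (h : ℤ)) (x - x0) := by
    have := Ty_supp hTy hx1
    simpa using this
  have hvx := v_congr (c := c) hx0 (P_mono (by omega) hxx0)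
  refine ⟨x, B, hxx0, hBP, ?_⟩
  intro g hg
  obtain ⟨f', hf', hf'1⟩ := cut_Ty (i := 1) le_rfl (hM x0 hP) hTy x
  have hg2 : g = ((EB B).1 x)⁻¹ • f' := by
    apply Sp_ext
    intro y
    change g.1 y = ((EB B).1 x)⁻¹ * f'.1 y
    rw [hg, hf'1]
    by_cases hy : c.P 0 (y - x)
    · rw [ind_apply_of hy, cut_apply_of (by simpa using hy)]
      have h1 : y = x * (1 + x⁻¹ * (y - x)) := by
        rw [mul_add, mul_one, mul_inv_cancel_left₀ hx, add_sub_cancel]
      have h2 : c.P h (x⁻¹ * (y - x)) := by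
        refine P_mul' (P_inv hx) hy ?_
        rw [hvx.2, hv]
        omega
      have h3 := Ty_right (by omega) hTy (x := x) h2
      rw [← h1] at h3
      have h4 : (!![0, B; x0, oh] : Matrix (Fin 2) (Fin 2) D) 0 0 * (x⁻¹ * (y - x)) = 0 := by simp
      rw [h4, AddChar.map_zero_eq_one, one_mul] at h3
      rw [h3, inv_mul_cancel₀ hx1]
    · rw [ind_apply_of_not hy, cut_apply_of_not (by simpa using hy), mul_zero]
  rw [hg2]
  refine Ty_congr (fun i j => ?_) (Ty_smul _ hf')
  fin_cases i <;> fin_cases j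
  · simp [c.P_zero]
  · simp [c.P_zero]
  · simpa using P_sub_comm hxx0
  · simp [c.P_zero]

end Pool.Agent.Helper42.QD
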