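import Pool.Agent.Helper42.QD.Stmts

/-!
# Moving the support of an eigenvector with diagonal type into `O`
-/

set_option autoImplicit false

namespace Pool.Agent.Helper42.QD

open VD

theorem dg2_mat {D : Type} [DivisionRing D] (b y : D) : ∃ κ : G2 D,
    (nm y)⁻¹ * nn b * nm y = κ * nn b ∧ κ.val 0 0 = 1 + b * y ∧ κ.val 0 1 = -(b * y * b) ∧
    κ.val 1 0 = -(y * b * y) ∧ κ.val 1 1 = 1 - y * b + y * b * y * b := by
  refine ⟨(nm y)⁻¹ * nn b * nm y * (nn b)⁻¹, by group, ?_, ?_, ?_, ?_⟩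
  all_goals
    rw [nm_inv, nn_inv]
    simp only [mul00, mul01, mul10, mul11, nn_val, nm_val, Matrix.of_apply,
      Matrix.cons_val', Matrix.cons_val_zero, Matrix.cons_val_one, Matrix.cons_val_fin_one]
    noncomm_ring

theorem dg2_step (hSUP : ST_SUP) {D k : Type} [DivisionRing D] [Field k] [Finite k] {c : VD D k}
    {R : KM c} (h : ℕ) (oh m0 m1 z : D) (hh : 0 < h) (hoh : IsOh R h oh) (hm0 : c.P (-h) m0)
    (hm1 : c.P (-h) m1) (hz : c.P h z) (hz1 : c.P 1 (m0 * z + z * m0 - oh * z + 1)) (i : ℤ)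
    (hi : 1 ≤ i) (hih : i ≤ h - 1) (f : Sp c) (hf : Ty R h !![m0, 0; 0, m1] f) (hf0 : f ≠ 0)
    (hsupp : ∀ x, f.1 x ≠ 0 → c.P (-i) x) :
    ∃ f' : Sp c, f' ≠ 0 ∧ Ty R h !![m0, 0; 0, m1] f' ∧ ∀ x, f'.1 x ≠ 0 → c.P (1 - i) x := by
  have hM : ∀ i j, c.P (-(h : ℤ)) ((!![m0, 0; 0, m1] : Matrix (Fin 2) (Fin 2) D) i j) :=
    P_of hm0 (c.P_zero _) (c.P_zero _) hm1
  obtain ⟨f0, hf0T, hf0v⟩ := cut_Ty hi hM hf 0
  by_cases h0 : f0 = 0
  · obtain ⟨x, hx0, hx⟩ := exists_ne hf0
    have hnx : ¬ c.P (1 - i) x := by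
      intro hP
      apply hx
      have h1 : f0.1 x = f.1 x := by
        rw [hf0v]
        exact cut_apply_of (by rw [sub_zero]; exact hP)
      rw [← h1, h0]
      rfl
    have hvx : c.v x = -i := by
      have h1 := (P_iff hx0).1 (hsupp x hx)
      have h2 := lt_of_not_P hnx
      omega
    obtain ⟨fc, hfcT, hfcv⟩ := cut_Ty hi hM hf x
    have hfcx : fc.1 x = f.1 x := by
      rw [hfcv]
      exact cut_apply_of (by rw [sub_self]; exact c.P_zero _)
    have hfc0 : fc ≠ 0 := by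
      intro h1
      apply hx
      rw [← hfcx, h1]
      rfl
    have hfcs : ∀ x', fc.1 x' ≠ 0 → c.P (1 - i) (x' - x) := by
      intro x' hx'
      by_contra hcon
      apply hx'
      rw [hfcv]
      exact cut_apply_of_not hcon
    have hPx : c.P (-i) x := hsupp x hx
    have hy : c.P (h - i) (x * z) := P_mul' hPx hz (by omega)
    set y := x * z with hydef
    -- the key element
    have hE : c.P (1 - i) (x + y * m0 - m1 * y) := by
      have e1 := hSUP D k c R h oh _ fc hh hoh hM hfcT x (by rw [hfcx]; exact hx)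
      have e2 : c.P (1 - h) (m1 - oh + x * m0 * x⁻¹) := e1
      have e3 : c.P (1 - h) (x * oh * x⁻¹ - oh) := hoh.2.2 x hx0
      have e4 : c.P (1 - i) ((m1 - oh + x * m0 * x⁻¹) * y) := P_mul' e2 hy (by omega)
      have e5 : c.P (1 - i) ((x * oh * x⁻¹ - oh) * y) := P_mul' e3 hy (by omega)
      have e6 : c.P (1 - i) (x * (m0 * z + z * m0 - oh * z + 1)) := P_mul' hPx hz1 (by omega)
      have e7 : x * m0 * x⁻¹ * y = x * m0 * z := by
        rw [hydef, ← mul_assoc, mul_assoc (x * m0) x⁻¹ x, inv_mul_cancel₀ hx0, mul_one]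
      have e8 : x * oh * x⁻¹ * y = x * oh * z := by
        rw [hydef, ← mul_assoc, mul_assoc (x * oh) x⁻¹ x, inv_mul_cancel₀ hx0, mul_one]
      have e9 : (m1 - oh + x * m0 * x⁻¹) * y = m1 * y - oh * y + x * m0 * z := by
        rw [add_mul, sub_mul, e7]
      have e10 : (x * oh * x⁻¹ - oh) * y = x * oh * z - oh * y := by
        rw [sub_mul, e8]
      rw [e9] at e4
      rw [e10] at e5
      have e11 : x + y * m0 - m1 * y = x * (m0 * z + z * m0 - oh * z + 1) -
          (m1 * y - oh * y + x * m0 * z) + (x * oh * z - oh * y) := by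
        rw [hydef]
        noncomm_ring
      rw [e11]
      exact P_add (P_sub e6 e4) e5
    have hKy : KK c 1 (nm y) := KK_nm (P_mono (by omega) hy)
    refine ⟨R.rho (nm y) fc, rho_ne hfc0, Ty_K1 hM hKy hfcT, ?_⟩
    intro x' hx'
    refine supp_of_nn (R := R) (i := i) ?_ hx'
    intro b hb
    obtain ⟨κ, hκ, k00, k01, k10, k11⟩ := dg2_mat b y
    have hby : c.P h (b * y) := P_mul' hb hy (by omega)
    have hyb : c.P h (y * b) := P_mul' hy hb (by omega)
    have hyby : c.P (2 * h) (y * b * y * b) := by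
      rw [mul_assoc (y * b)]
      exact P_mul' hyb hyb (by omega)
    have hKκ : KK c h κ := by
      rw [KK_iff, k00, k01, k10, k11]
      refine ⟨?_, ?_, ?_, ?_⟩
      · rw [add_sub_cancel_left]
        exact hby
      · exact P_neg (P_mul' hby hb (by omega))
      · refine P_neg (P_mul' hyb hy (by omega))
      · have e : 1 - y * b + y * b * y * b - 1 = y * b * y * b - y * b := by abel
        rw [e]
        exact P_sub (P_mono (by omega) hyby) hyb
    have h1 : R.rho (nn b) (R.rho (nm y) fc) = R.rho (nm y) (R.rho κ (R.rho (nn b) fc)) := by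
      have hg : nn b * nm y = nm y * κ * nn b := by
        rw [mul_assoc (nm y), ← hκ]
        group
      rw [← rho_mul, ← rho_mul, ← rho_mul, hg]
    rw [h1, nn_of_supp' hfcs hb, map_smul, hfcT κ hKκ, smul_smul]
    have h2 : ((!![m0, 0; 0, m1] : Matrix (Fin 2) (Fin 2) D) * (κ.val - 1)).trace =
        m0 * (b * y) + m1 * (y * b * y * b - y * b) := by
      simp only [Matrix.trace_fin_two, Matrix.mul_apply, Fin.sum_univ_two, sub00, sub01, sub10,
        sub11, k00, k01, k10, k11, Matrix.of_apply, Matrix.cons_val', Matrix.cons_val_zero,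
        Matrix.cons_val_one, Matrix.cons_val_fin_one]
      noncomm_ring
    rw [h2]
    have h3 : c.psi (m0 * (b * y) + m1 * (y * b * y * b - y * b)) =
        c.psi (y * m0 * b) * c.psi (-(m1 * y * b)) := by
      rw [AddChar.map_add_eq_mul]
      congr 1
      · rw [← mul_assoc, c.psi_comm, ← mul_assoc]
      · apply psi_congr
        have e : m1 * (y * b * y * b - y * b) - -(m1 * y * b) = m1 * (y * b * y * b) := by
          noncomm_ring
        rw [e]
        exact P_mul' hm1 hyby (by omega)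
    rw [h3, ← AddChar.map_add_eq_mul, ← AddChar.map_add_eq_mul]
    have h4 : x * b + (y * m0 * b + -(m1 * y * b)) = (x + y * m0 - m1 * y) * b := by
      noncomm_ring
    rw [h4, psi_triv hE hb, one_smul]
  · refine ⟨f0, h0, hf0T, ?_⟩
    intro x hx
    by_contra hcon
    apply hx
    rw [hf0v]
    exact cut_apply_of_not (by rw [sub_zero]; exact hcon)

theorem st_DG2 (hSUP : ST_SUP) : ST_DG2 := by
  intro D k _ _ _ c R h oh m0 m1 f hh hoh hm0 hm1 hz hf hf0
  obtain ⟨z, hz, hz1⟩ := hz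
  have key : ∀ n : ℕ, n + 1 ≤ h → ∃ f' : Sp c, f' ≠ 0 ∧ Ty R h !![m0, 0; 0, m1] f' ∧
      ∀ x, f'.1 x ≠ 0 → c.P (-((h : ℤ) - 1 - n)) x := by
    intro n
    induction n with
    | zero =>
      intro _
      refine ⟨f, hf0, hf, ?_⟩
      intro x hx
      have h1 := Ty_supp hf hx
      have h2 : x - (!![m0, 0; 0, m1] : Matrix (Fin 2) (Fin 2) D) 1 0 = x := by simp
      rw [h2] at h1
      exact P_mono (by push_cast; omega) h1
    | succ n ih =>
      intro hn
      obtain ⟨f1, hf10, hf1T, hf1s⟩ := ih (by omega)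
      obtain ⟨f2, hf20, hf2T, hf2s⟩ := dg2_step hSUP h oh m0 m1 z hh hoh hm0 hm1 hz hz1
        ((h : ℤ) - 1 - n) (by omega) (by omega) f1 hf1T hf10 hf1s
      exact ⟨f2, hf20, hf2T, fun x hx => P_mono (by push_cast; omega) (hf2s x hx)⟩
  obtain ⟨f', h1, h2, h3⟩ := key (h - 1) (by omega)
  refine ⟨f', h1, h2, fun x hx => P_mono ?_ (h3 x hx)⟩
  have h4 : ((h - 1 : ℕ) : ℤ) = (h : ℤ) - 1 := by omega
  rw [h4]
  omega

end Pool.Agent.Helper42.QD
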